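import Pool.Agent.K3h41.SYS.Sector
import Pool.Agent.K3h41.SYH.Main

/-!
Open sets of classes near a degenerate closed form, in terms of the public definitions.
-/

set_option autoImplicit false
set_option linter.unusedSectionVars false

open Set Filter Topology
open scoped Manifold ContDiff

noncomputable section

namespace Pool.Agent.K3h41.SYS

open Pool.Agent.Y501.SYP
open Pool.Agent.Y501
open Pool.Agent.R772.SYK
open Pool.Agent.R772.SYG
open Pool.Agent.R772.SYF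
open Pool.Agent.R772.SYD
open Pool.Agent.R772.SYM
open Pool.Agent.K3h41.SYA
open Pool.Agent.K3h41.SYHP
open Pool.Agent.K3h41

/-- the form `∑ s_i ζ_i` -/
def lin {V : Type} [NormedAddCommGroup V] [NormedSpace ℝ V] {X : Type} [TopologicalSpace X]
    [ChartedSpace V X] {k : ℕ} (ζ : Fin k → Form V X 2) (s : Fin k → ℝ) : Form V X 2 :=
  fun x => ∑ i, s i • ζ i x

section

variable {m d : ℕ} {X : Type} [TopologicalSpace X] [ChartedSpace (ES d) X]

attribute [local instance] Pool.Agent.Y501.SYP.cs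
attribute [local instance] Pool.Agent.Y501.SYP.mf

theorem lin_eq {k : ℕ} (ζ : Fin k → Form (ES d) X 2) (s : Fin k → ℝ) :
    lin ζ s = (∑ i, s i • (show SY.Form d X 2 from ζ i) : SY.Form d X 2) := by
  funext x
  have h5 : (∑ i, s i • (show SY.Form d X 2 from ζ i) : SY.Form d X 2) x =
      ∑ i, s i • (show SY.Form d X 2 from ζ i) x :=
    (Finset.sum_apply x Finset.univ (fun i => s i • (show SY.Form d X 2 from ζ i))).trans rfl
  rw [h5]
  rfl

theorem mixed_comb {σ : Form (ES d) X 2} (x : X) (η η' : Cov (ES d) x) (a b : ℝ)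
    (e : Fam (ES d) m x) : mixed m σ x (a • η + b • η') e =
      a * mixed m σ x η e + b * mixed m σ x η' e := by
  have h1 := R772.wedge_cons_add (m := m) (σ x) (a • η) (b • η') e
  have h2 := R772.wedge_cons_smul (m := m) (σ x) η a e
  have h3 := R772.wedge_cons_smul (m := m) (σ x) η' b e
  exact h1.trans (congrArg₂ (· + ·) h2 h3)

variable [IsManifold 𝓘(ℝ, ES d) ∞ X] [CompactSpace X] [T2Space X]

theorem closed_lin {k : ℕ} {ζ : Fin k → Form (ES d) X 2} (hζ : ∀ i, IsClosed2 (ζ i))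
    (s : Fin k → ℝ) : IsClosed2 (lin ζ s) := by
  have h := SY.closed_sum (d := d) (X := X) Finset.univ
    (σ := fun i => s i • (show SY.Form d X 2 from ζ i)) (fun i _ =>
      SY.closed_smul (d := d) (X := X) ⟨(smooth_iff (ζ i)).1 (hζ i).smooth,
        (closed_iff (ζ i)).1 (hζ i).closed⟩ (s i))
  rw [lin_eq]
  exact ⟨(smooth_iff _).2 h.1, (closed_iff _).2 h.2⟩


/-- the criterion in terms of admissible forms -/
theorem adm_iff (hd : d = 2 * (m + 1)) {vol : TopForm (ES d) X m} (hvol : IsVolume vol)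
    {σ θ : Form (ES d) X 2} (hσ : IsClosed2 σ) (hθ : IsClosed2 θ) (hnn : TopNonneg vol σ) :
    (∀ C : Set X, TestSet vol σ C → AvgTest vol σ θ C) ↔
      ∃ (α : Form (ES d) X 1) (ρ : Form (ES d) X 2), ExactPair α ρ ∧
        PosOnDeg vol σ (addF θ ρ) := by
  rw [← posOnDeg_sympl hd hvol hσ hθ hnn]
  exact ((SYA.tfae hd vol hvol σ θ hσ hθ hnn).out 0 1).symm

theorem exact_comb {α α' : Form (ES d) X 1} {ρ ρ' : Form (ES d) X 2} (h : ExactPair α ρ)
    (h' : ExactPair α' ρ') (a b : ℝ) :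
    ExactPair (fun x => a • α x + b • α' x) (fun x => a • ρ x + b • ρ' x) := by
  have s1 := (smooth_iff α).1 h.smooth
  have s2 := (smooth_iff α').1 h'.smooth
  have s3 := (smooth_iff ρ).1 h.smooth_d
  have s4 := (smooth_iff ρ').1 h'.smooth_d
  refine ⟨(smooth_iff _).2 ((s1.smul a).add (s2.smul b)),
    (smooth_iff _).2 ((s3.smul a).add (s4.smul b)), (isD_iff _ _).2 ?_⟩
  exact (((isD_iff α ρ).1 h.isD).smul a).add (((isD_iff α' ρ').1 h'.isD).smul b)
    (s1.smul a) (s2.smul b)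

theorem adm_comb {vol : TopForm (ES d) X m} {σ : Form (ES d) X 2} {k : ℕ}
    {ζ : Fin k → Form (ES d) X 2} {s s' : Fin k → ℝ}
    (h : ∃ (α : Form (ES d) X 1) (ρ : Form (ES d) X 2), ExactPair α ρ ∧
      PosOnDeg vol σ (addF (lin ζ s) ρ))
    (h' : ∃ (α : Form (ES d) X 1) (ρ : Form (ES d) X 2), ExactPair α ρ ∧
      PosOnDeg vol σ (addF (lin ζ s') ρ)) {a b : ℝ} (ha : 0 ≤ a) (hb : 0 ≤ b)
    (hab : 0 < a + b) :
    ∃ (α : Form (ES d) X 1) (ρ : Form (ES d) X 2), ExactPair α ρ ∧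
      PosOnDeg vol σ (addF (lin ζ (a • s + b • s')) ρ) := by
  obtain ⟨α, ρ, h1, h2⟩ := h
  obtain ⟨α', ρ', h1', h2'⟩ := h'
  refine ⟨_, _, exact_comb h1 h1' a b, fun x hx e he => ?_⟩
  have k1 := h2 x hx e he
  have k2 := h2' x hx e he
  have e1 : addF (lin ζ (a • s + b • s')) (fun x => a • ρ x + b • ρ' x) x =
      a • addF (lin ζ s) ρ x + b • addF (lin ζ s') ρ' x := by
    show (∑ i, (a • s + b • s') i • ζ i x) + (a • ρ x + b • ρ' x) =
      a • ((∑ i, s i • ζ i x) + ρ x) + b • ((∑ i, s' i • ζ i x) + ρ' x)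
    have e2 : (∑ i, (a • s + b • s') i • ζ i x) =
        a • (∑ i, s i • ζ i x) + b • (∑ i, s' i • ζ i x) := by
      rw [Finset.smul_sum, Finset.smul_sum, ← Finset.sum_add_distrib]
      refine Finset.sum_congr rfl fun i _ => ?_
      show (a * s i + b * s' i) • ζ i x = a • s i • ζ i x + b • s' i • ζ i x
      rw [add_smul, smul_smul, smul_smul]
    rw [e2, smul_add, smul_add]
    exact add_add_add_comm _ _ _ _
  rw [e1, mixed_comb]
  rcases ha.eq_or_lt with h0 | h0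
  · have hb' : 0 < b := by rw [← h0, zero_add] at hab; exact hab
    have := mul_nonneg ha k1.le
    have := mul_pos hb' k2
    linarith
  · have := mul_pos h0 k1
    have := mul_nonneg hb k2.le
    linarith

/-- the family `∑ p_i ζ_i + ρ` -/
theorem lin_cont {k : ℕ} {ζ : Fin k → Form (ES d) X 2} (hζ : ∀ i, IsClosed2 (ζ i))
    {ρ : Form (ES d) X 2} (hρ : IsSmooth ρ) :
    R772.ContFam (d := d) (X := X) (P := Fin k → ℝ) (fun p => addF (lin ζ p) ρ) := by
  have h1 := R772.ContFam.sum (d := d) (X := X) (P := Fin k → ℝ) (Finset.univ : Finset (Fin k))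
    (σ := fun i p => p i • (show SY.Form d X 2 from ζ i)) (fun i =>
      (R772.IsSmooth.contFam (d := d) (X := X) (P := Fin k → ℝ)
        ((smooth_iff (ζ i)).1 (hζ i).smooth)).smul (c := fun p : Fin k → ℝ => p i)
        (continuous_apply i))
  have h2 := h1.add (R772.IsSmooth.contFam (d := d) (X := X) (P := Fin k → ℝ)
    ((smooth_iff ρ).1 hρ))
  refine (funext fun p => ?_ : (fun p : Fin k → ℝ =>
    (∑ i, p i • (show SY.Form d X 2 from ζ i) : SY.Form d X 2) +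
      (show SY.Form d X 2 from ρ)) = fun p => addF (lin ζ p) ρ) ▸ h2
  rw [← lin_eq]
  rfl

theorem isOpen_adm (hd : d = 2 * (m + 1)) {vol : TopForm (ES d) X m} (hvol : IsVolume vol)
    {σ : Form (ES d) X 2} (hσ : IsClosed2 σ) (hnn : TopNonneg vol σ) {k : ℕ}
    {ζ : Fin k → Form (ES d) X 2} (hζ : ∀ i, IsClosed2 (ζ i)) :
    IsOpen {s : Fin k → ℝ | ∃ (α : Form (ES d) X 1) (ρ : Form (ES d) X 2), ExactPair α ρ ∧
      PosOnDeg vol σ (addF (lin ζ s) ρ)} := by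
  rw [isOpen_iff_eventually]
  rintro s ⟨α, ρ, h1, h2⟩
  have h3 := SYS.openB (d := d) (m := m) (X := X) (P := Fin k → ℝ) hd (vol := toTop vol)
    (vol_of hvol) ((smooth_iff σ).1 hσ.smooth) (lin_cont hζ h1.smooth_d) (p₀ := s)
    (fun x hx e he => h2 x ((deg_iff hd hvol hnn x).2 hx) e he)
  filter_upwards [h3] with p hp
  exact ⟨α, ρ, h1, fun x hx e he => hp x ((deg_iff hd hvol hnn x).1 hx) e he⟩

/-- uniform resolutions -/
theorem uniform (hd : d = 2 * (m + 1)) {vol : TopForm (ES d) X m} (hvol : IsVolume vol)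
    {σ : Form (ES d) X 2} (hσ : IsClosed2 σ) (hnn : TopNonneg vol σ) {k : ℕ}
    {ζ : Fin k → Form (ES d) X 2} (hζ : ∀ i, IsClosed2 (ζ i)) {S : Set (Fin k → ℝ)}
    (hS : IsCompact S) (hSK : ∀ s ∈ S, ∃ (α : Form (ES d) X 1) (ρ : Form (ES d) X 2),
      ExactPair α ρ ∧ PosOnDeg vol σ (addF (lin ζ s) ρ)) :
    ∃ c : ℝ, 0 < c ∧ ∀ s ∈ S, ∃ (α : Form (ES d) X 1) (ρ : Form (ES d) X 2),
      ExactPair α ρ ∧ ∀ t : ℝ, 0 < t → t ≤ c →
        IsPosSymplectic vol (comb σ t (addF (lin ζ s) ρ)) := by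
  refine hS.induction_on (p := fun T : Set (Fin k → ℝ) => ∃ c : ℝ, 0 < c ∧ ∀ s ∈ T,
    ∃ (α : Form (ES d) X 1) (ρ : Form (ES d) X 2), ExactPair α ρ ∧ ∀ t : ℝ, 0 < t → t ≤ c →
      IsPosSymplectic vol (comb σ t (addF (lin ζ s) ρ)))
    ⟨1, one_pos, fun s hs => absurd hs (notMem_empty s)⟩
    (fun T T' hT ⟨c, hc, h⟩ => ⟨c, hc, fun s hs => h s (hT hs)⟩)
    (fun T T' ⟨c, hc, h⟩ ⟨c', hc', h'⟩ => ⟨min c c', lt_min hc hc', fun s hs => ?_⟩)
    (fun s hs => ?_)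
  · rcases hs with hs | hs
    · obtain ⟨α, ρ, h1, h2⟩ := h s hs
      exact ⟨α, ρ, h1, fun t ht0 ht1 => h2 t ht0 (ht1.trans (min_le_left _ _))⟩
    · obtain ⟨α, ρ, h1, h2⟩ := h' s hs
      exact ⟨α, ρ, h1, fun t ht0 ht1 => h2 t ht0 (ht1.trans (min_le_right _ _))⟩
  · obtain ⟨α, ρ, h1, h2⟩ := hSK s hs
    obtain ⟨ε, hε, h3⟩ := SYS.unifB (d := d) (m := m) (X := X) (P := Fin k → ℝ) hd
      (vol := toTop vol) (vol_of hvol) ((smooth_iff σ).1 hσ.smooth)
      (fun x e he => hnn x e he) (lin_cont hζ h1.smooth_d) (p₀ := s)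
      (fun x hx e he => h2 x ((deg_iff hd hvol hnn x).2 hx) e he)
    refine ⟨_, mem_nhdsWithin_of_mem_nhds h3, ε, hε, fun p hp => ⟨α, ρ, h1,
      fun t ht0 ht1 => ?_⟩⟩
    have hl := closed_lin hζ p
    have hcl := R772.closed_comb (d := d) (X := X) ((smooth_iff σ).1 hσ.smooth)
      ((closed_iff σ).1 hσ.closed) ((smooth_iff _).1 hl.smooth) ((closed_iff _).1 hl.closed)
      ((smooth_iff α).1 h1.smooth) ((smooth_iff ρ).1 h1.smooth_d) ((isD_iff α ρ).1 h1.isD) t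
    have hsm := ((smooth_iff σ).1 hσ.smooth).add
      ((((smooth_iff _).1 hl.smooth).add ((smooth_iff ρ).1 h1.smooth_d)).smul t)
    exact ⟨⟨(smooth_iff _).2 hsm, (closed_iff _).2 hcl⟩,
      fun x v hv => R772.PosTop.nondeg (d := d) (m := m) (X := X) hd (vol_of hvol)
        (hp x t ht0 ht1) v hv, fun x e he => hp x t ht0 ht1 e he⟩

/-- the main theorem -/
theorem classes (hd : d = 2 * (m + 1)) {vol : TopForm (ES d) X m} (hvol : IsVolume vol)
    {σ : Form (ES d) X 2} (hσ : IsClosed2 σ) (hnn : TopNonneg vol σ) {k : ℕ}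
    {ζ : Fin k → Form (ES d) X 2} (hζ : ∀ i, IsClosed2 (ζ i)) {K : Set (Fin k → ℝ)}
    (hK : ∀ s, s ∈ K ↔ ∀ C : Set X, TestSet vol σ C → AvgTest vol σ (lin ζ s) C) :
    IsOpen K ∧ Convex ℝ K ∧ (∀ s ∈ K, ∀ r : ℝ, 0 < r → r • s ∈ K) ∧ (0 ∈ K → K = univ) ∧
      ∀ S : Set (Fin k → ℝ), IsCompact S → S ⊆ K → ∃ c : ℝ, 0 < c ∧ ∀ s ∈ S,
        ∃ (α : Form (ES d) X 1) (ρ : Form (ES d) X 2), ExactPair α ρ ∧
          ∀ t : ℝ, 0 < t → t ≤ c → IsPosSymplectic vol (comb σ t (addF (lin ζ s) ρ)) ∧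
            ∀ τ : Form (ES d) X 2, Positive vol τ →
              (PathIn (Positive vol) τ (comb σ t (addF (lin ζ s) ρ)) ↔
                PathIn (Weak vol) τ σ) := by
  have hadm : K = {s : Fin k → ℝ | ∃ (α : Form (ES d) X 1) (ρ : Form (ES d) X 2),
      ExactPair α ρ ∧ PosOnDeg vol σ (addF (lin ζ s) ρ)} := by
    ext s
    rw [hK s, adm_iff hd hvol hσ (closed_lin hζ s) hnn]
    rfl
  have hopen : IsOpen K := by
    rw [hadm]
    exact isOpen_adm hd hvol hσ hnn hζ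
  have hcomb : ∀ s ∈ K, ∀ s' ∈ K, ∀ a b : ℝ, 0 ≤ a → 0 ≤ b → 0 < a + b →
      a • s + b • s' ∈ K := by
    intro s hs s' hs' a b ha hb hab
    rw [hadm] at hs hs' ⊢
    exact adm_comb hs hs' ha hb hab
  have hcone : ∀ s ∈ K, ∀ r : ℝ, 0 < r → r • s ∈ K := by
    intro s hs r hr
    have h := hcomb s hs s hs r 0 hr.le le_rfl (by linarith)
    rwa [zero_smul, add_zero] at h
  refine ⟨hopen, ?_, hcone, ?_, ?_⟩
  · intro s hs s' hs' a b ha hb hab
    exact hcomb s hs s' hs' a b ha hb (by linarith)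
  · intro h0
    rw [eq_univ_iff_forall]
    intro s
    have hc : Tendsto (fun r : ℝ => r • s) (𝓝 0) (𝓝 ((0 : ℝ) • s)) :=
      (continuous_id.smul continuous_const).tendsto 0
    rw [zero_smul] at hc
    have h1 := hc.eventually (hopen.mem_nhds h0)
    obtain ⟨δ, hδ, hball⟩ := Metric.eventually_nhds_iff.1 h1
    have h2 : (δ / 2) • s ∈ K := hball (by
      rw [Real.dist_eq, sub_zero, abs_of_pos (half_pos hδ)]
      exact half_lt_self hδ)
    have h3 := hcone _ h2 (δ / 2)⁻¹ (inv_pos.2 (half_pos hδ))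
    rwa [smul_smul, inv_mul_cancel₀ (half_pos hδ).ne', one_smul] at h3
  · intro S hS hSK
    obtain ⟨c, hc, h⟩ := uniform hd hvol hσ hnn hζ hS (fun s hs => by
      have := hSK hs
      rw [hadm] at this
      exact this)
    refine ⟨c, hc, fun s hs => ?_⟩
    obtain ⟨α, ρ, h1, h2⟩ := h s hs
    have hw : Weak vol σ := by
      have := hSK hs
      rw [hadm] at this
      obtain ⟨_, _, _, hp⟩ := this
      exact weak_of hvol hσ.smooth hnn hp
    refine ⟨α, ρ, h1, fun t ht0 ht1 => ⟨h2 t ht0 ht1, fun τ hτ => ?_⟩⟩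
    exact resolutions hd hvol hw ((smooth_iff _).2
      (((smooth_iff _).1 (closed_lin hζ s).smooth).add ((smooth_iff ρ).1 h1.smooth_d)))
      (fun t ht0 ht1 => ⟨(h2 t ht0 ht1).closed.smooth, (h2 t ht0 ht1).pos⟩) ht0 ht1 hτ


/-- a neighbourhood of the class of `σ` -/
theorem nhd {vol : TopForm (ES d) X m} {σ : Form (ES d) X 2} {k : ℕ}
    {ζ : Fin k → Form (ES d) X 2}
    (h : ∃ c : ℝ, 0 < c ∧ ∀ s ∈ Metric.closedBall (0 : Fin k → ℝ) 1,
        ∃ (α : Form (ES d) X 1) (ρ : Form (ES d) X 2), ExactPair α ρ ∧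
          ∀ t : ℝ, 0 < t → t ≤ c → IsPosSymplectic vol (comb σ t (addF (lin ζ s) ρ)) ∧
            ∀ τ : Form (ES d) X 2, Positive vol τ →
              (PathIn (Positive vol) τ (comb σ t (addF (lin ζ s) ρ)) ↔
                PathIn (Weak vol) τ σ)) :
    ∃ ε : ℝ, 0 < ε ∧ ∀ s : Fin k → ℝ, ‖s‖ ≤ ε →
      ∃ (α : Form (ES d) X 1) (ρ : Form (ES d) X 2), ExactPair α ρ ∧
        IsPosSymplectic vol (addF σ (addF (lin ζ s) ρ)) ∧
          ∀ τ : Form (ES d) X 2, Positive vol τ →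
            (PathIn (Positive vol) τ (addF σ (addF (lin ζ s) ρ)) ↔ PathIn (Weak vol) τ σ) := by
  obtain ⟨c, hc, h⟩ := h
  refine ⟨c, hc, fun s hs => ?_⟩
  have hs' : c⁻¹ • s ∈ Metric.closedBall (0 : Fin k → ℝ) 1 := by
    rw [mem_closedBall_zero_iff, norm_smul, norm_inv, Real.norm_eq_abs, abs_of_pos hc,
      inv_mul_le_iff₀ hc, mul_one]
    exact hs
  obtain ⟨α, ρ, h1, h2⟩ := h _ hs'
  obtain ⟨h3, h4⟩ := h2 c hc le_rfl
  have e : comb σ c (addF (lin ζ (c⁻¹ • s)) ρ) =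
      addF σ (addF (lin ζ s) (fun x => c • ρ x + (0 : ℝ) • ρ x)) := by
    funext x
    show σ x + c • ((∑ i, (c⁻¹ • s) i • ζ i x) + ρ x) =
      σ x + ((∑ i, s i • ζ i x) + (c • ρ x + (0 : ℝ) • ρ x))
    have e2 : c • (∑ i, (c⁻¹ • s) i • ζ i x) = ∑ i, s i • ζ i x := by
      rw [Finset.smul_sum]
      refine Finset.sum_congr rfl fun i _ => ?_
      show c • (c⁻¹ * s i) • ζ i x = s i • ζ i x
      rw [smul_smul, mul_inv_cancel_left₀ hc.ne']
    rw [smul_add, e2, zero_smul, add_zero]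
  rw [e] at h3 h4
  exact ⟨_, _, exact_comb h1 h1 c 0, h3, h4⟩

/-- an open convex set which does not contain zero lies in an open half space -/
theorem halfSpace {k : ℕ} {K : Set (Fin k → ℝ)} (h1 : IsOpen K) (h2 : Convex ℝ K)
    (h0 : (0 : Fin k → ℝ) ∉ K) : ∃ a : Fin k → ℝ, ∀ s ∈ K, 0 < ∑ i, a i * s i := by
  obtain ⟨f, hf⟩ := geometric_hahn_banach_point_open h2 h1 h0
  refine ⟨fun i => f (Pi.single i 1), fun s hs => ?_⟩
  have h3 := hf s hs
  rw [map_zero] at h3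
  have h4 : f s = ∑ i, f (Pi.single i 1) * s i := by
    conv_lhs => rw [pi_eq_sum_univ' s]
    rw [map_sum]
    refine Finset.sum_congr rfl fun i _ => ?_
    rw [map_smul, smul_eq_mul, mul_comm]
  rw [← h4]
  exact h3

end

end Pool.Agent.K3h41.SYS
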