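import Pool.Agent.K3h41.SYH.Canon2

/-!
Admissible forms depending on parameters.
-/

set_option autoImplicit false
set_option linter.unusedSectionVars false

open Set Filter Topology
open scoped Manifold ContDiff

noncomputable section

namespace Pool.Agent.K3h41.SYS

open Pool.Agent.Y501.SY
open Pool.Agent.R772
open Pool.Agent.K3h41.SYH

section

variable {d m : ℕ} {X : Type} [TopologicalSpace X] [ChartedSpace (E d) X]
  [IsManifold (𝓡 d) ∞ X] [CompactSpace X] {P : Type} [TopologicalSpace P]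

/-- positivity of `σ + t η p` for `p` near `p₀` and small `t`, uniformly -/
theorem unifB (hd : d = 2 * (m + 1)) {vol : Top d m X} (hvol : IsVol vol)
    {σ : Form d X 2} (hσ : IsSmooth σ) (hnn : ∀ x, NonnegTop vol σ x) {η : P → Form d X 2}
    (hη : ContFam η) {p₀ : P} (hl : ∀ x, ¬ PosTop vol σ x → LinPos vol σ (η p₀) x) :
    ∃ ε : ℝ, 0 < ε ∧ ∀ᶠ p in 𝓝 p₀, ∀ x, ∀ t : ℝ, 0 < t → t ≤ ε →
      PosTop vol (σ + t • η p) x := by
  have hσf := IsSmooth.contFam (P := P) hσ
  have key : ∀ x : X, ∃ ε : ℝ, 0 < ε ∧ ∀ᶠ y in 𝓝 (p₀, x), ∀ t : ℝ, 0 < t → t ≤ ε →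
      PosTop vol (σ + t • η y.1) y.2 := by
    intro x
    by_cases hx : PosTop vol σ x
    · obtain ⟨ε, hε, he⟩ := PosTop.fam hd hvol hσf hη (p₀ := p₀) hx
      exact ⟨ε, hε, he.mono fun y hy t h0 h1 => hy t (by rw [abs_of_pos h0]; exact h1)⟩
    · exact LinPos.topFam hd hvol hσf hη (fun p x e he => hnn x e he) (hl x hx)
  have h := isCompact_univ.induction_on (X := X) (s := univ)
    (p := fun S : Set X => ∃ ε : ℝ, 0 < ε ∧ ∀ᶠ p in 𝓝 p₀, ∀ x ∈ S, ∀ t : ℝ, 0 < t → t ≤ ε →
      PosTop vol (σ + t • η p) x)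
    ⟨1, one_pos, Eventually.of_forall fun p x hx => absurd hx (notMem_empty x)⟩
    (fun S T hST ⟨ε, hε, he⟩ => ⟨ε, hε, he.mono fun p hp x hx => hp x (hST hx)⟩)
    (fun S T ⟨ε, hε, he⟩ ⟨ε', hε', he'⟩ => ⟨min ε ε', lt_min hε hε', by
      filter_upwards [he, he'] with p hp hp' x hx t ht0 ht1
      rcases hx with hx | hx
      · exact hp x hx t ht0 (ht1.trans (min_le_left _ _))
      · exact hp' x hx t ht0 (ht1.trans (min_le_right _ _))⟩)
    (fun x _ => by
      obtain ⟨ε, hε, he⟩ := key x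
      rw [nhds_prod_eq, Filter.eventually_prod_iff] at he
      obtain ⟨pa, ha, pb, hb, hab⟩ := he
      refine ⟨{y | pb y}, mem_nhdsWithin_of_mem_nhds hb, ε, hε, ?_⟩
      filter_upwards [ha] with p hp y hy
      exact hab hp hy)
  obtain ⟨ε, hε, he⟩ := h
  exact ⟨ε, hε, he.mono fun p hp x => hp x (mem_univ x)⟩

/-- admissibility is open -/
theorem openB (hd : d = 2 * (m + 1)) {vol : Top d m X} (hvol : IsVol vol)
    {σ : Form d X 2} (hσ : IsSmooth σ) {η : P → Form d X 2}
    (hη : ContFam η) {p₀ : P} (hl : ∀ x, ¬ PosTop vol σ x → LinPos vol σ (η p₀) x) :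
    ∀ᶠ p in 𝓝 p₀, ∀ x, ¬ PosTop vol σ x → LinPos vol σ (η p) x := by
  have hσf := IsSmooth.contFam (P := P) hσ
  have h := isCompact_univ.eventually_forall_of_forall_eventually (X := P) (x₀ := p₀)
    (K := (univ : Set X))
    (P := fun p x => ¬ PosTop vol σ x → LinPos vol σ (η p) x) (by
      intro x _
      by_cases hx : PosTop vol σ x
      · obtain ⟨ε, hε, he⟩ := PosTop.fam hd hvol hσf (ContFam.zero (P := P)) (p₀ := p₀) hx
        filter_upwards [he] with y hy hn
        have := hy 0 (by rw [abs_zero]; exact hε.le)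
        exact absurd (by simpa using this) hn
      · have := LinPos.fam (P := P) hd hvol hσf hη (p₀ := p₀) (x := x) (hl x hx)
        filter_upwards [this] with y hy _
        exact hy)
  exact h.mono fun p hp x => hp x (mem_univ x)

end

end Pool.Agent.K3h41.SYS
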